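import Pool.Agent.H.MP_b8847a_al.Nil

set_option maxHeartbeats 400000

namespace Pool.Agent.H.MP_b8847a_al

open Pool.Agent.H.MP_b27eb5_al ExteriorAlgebra

universe u

variable {F : Type u} [Field F]

section

variable {V V' : Type u} [AddCommGroup V] [Module F V] [AddCommGroup V'] [Module F V']

/-- the module -/
abbrev MM (F V : Type u) [Field F] [AddCommGroup V] [Module F V] : Type u :=
  F × F × ExteriorAlgebra F V × F

variable (σ : V →ₗ[F] F) (τ : ExteriorAlgebra F V →ₗ[F] F) (j : V' →ₗ[F] V)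

/-- the action -/
noncomputable def act : MM F V →ₗ[F] V →ₗ[F] MM F V :=
  LinearMap.mk₂ F (fun μ v => (0, σ v * μ.1, (σ v * μ.2.1) • 1 + μ.2.2.1 * ι F v, σ v * τ μ.2.2.1))
    (fun a b c => by ext <;> simp [mul_add, add_mul, add_smul]; abel)
    (fun r a b => by ext <;> simp [mul_left_comm, smul_smul])
    (fun a b c => by ext <;> simp [mul_add, add_mul, add_smul]; abel)
    (fun r a b => by ext <;> simp [mul_assoc, smul_smul])

theorem act_apply (μ : MM F V) (v : V) : act σ τ μ v =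
    (0, σ v * μ.1, (σ v * μ.2.1) • 1 + μ.2.2.1 * ι F v, σ v * τ μ.2.2.1) := rfl

/-- the product -/
noncomputable def pr : (V' × MM F V) →ₗ[F] (V' × MM F V) →ₗ[F] (V' × MM F V) :=
  LinearMap.mk₂ F (fun p q => (0, (2⁻¹ : F) • (act σ τ p.2 (j q.1) - act σ τ q.2 (j p.1))))
    (fun a b c => by
      refine Prod.ext (by simp) ?_
      simp only [Prod.fst_add, Prod.snd_add, map_add, LinearMap.add_apply]; module)
    (fun r a b => by
      refine Prod.ext (by simp) ?_
      simp only [Prod.smul_fst, Prod.smul_snd, map_smul, LinearMap.smul_apply]; module)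
    (fun a b c => by
      refine Prod.ext (by simp) ?_
      simp only [Prod.fst_add, Prod.snd_add, map_add, LinearMap.add_apply]; module)
    (fun r a b => by
      refine Prod.ext (by simp) ?_
      simp only [Prod.smul_fst, Prod.smul_snd, map_smul, LinearMap.smul_apply]; module)

theorem pr_apply (p q : V' × MM F V) : pr σ τ j p q =
    (0, (2⁻¹ : F) • (act σ τ p.2 (j q.1) - act σ τ q.2 (j p.1))) := rfl

theorem pr_anti (p q : V' × MM F V) : pr σ τ j p q = -pr σ τ j q p := by
  rw [pr_apply, pr_apply]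
  refine Prod.ext (by simp) ?_
  simp only [Prod.snd_neg]; module

/-- underlying pair -/
def un (p : Alg (pr σ τ j)) : V' × MM F V := p

theorem un_cm (h2 : (2 : F) ≠ 0) (p q : Alg (pr σ τ j)) :
    un σ τ j (cm p q) = (0, act σ τ (un σ τ j p).2 (j (un σ τ j q).1) -
      act σ τ (un σ τ j q).2 (j (un σ τ j p).1)) := by
  change pr σ τ j (un σ τ j p) (un σ τ j q) - pr σ τ j (un σ τ j q) (un σ τ j p) = _
  rw [pr_anti σ τ j (un σ τ j q), sub_neg_eq_add, ← two_smul F, pr_apply]
  refine Prod.ext (by simp) ?_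
  simp only [Prod.smul_snd, smul_smul, mul_inv_cancel₀ h2, one_smul]

theorem un_cm' (h2 : (2 : F) ≠ 0) (p q : Alg (pr σ τ j)) (μ : MM F V) (hp : un σ τ j p = (0, μ)) :
    un σ τ j (cm p q) = (0, act σ τ μ (j (un σ τ j q).1)) := by
  rw [un_cm σ τ j h2, hp]; simp

theorem un_foldl (h2 : (2 : F) ≠ 0) (l : List (Alg (pr σ τ j))) :
    ∀ (p : Alg (pr σ τ j)) (ω : ExteriorAlgebra F V) (γ : F), un σ τ j p = (0, (0, 0, ω, γ)) →
      ∃ γ', un σ τ j (l.foldl cm p) =
        (0, (0, 0, ω * (l.map fun q => ι F (j (un σ τ j q).1)).prod, γ')) := by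
  induction l with
  | nil => intro p ω γ h; exact ⟨γ, by simpa using h⟩
  | cons x l ih =>
    intro p ω γ h
    obtain ⟨γ', h'⟩ := ih (cm p x) (ω * ι F (j (un σ τ j x).1)) (σ (j (un σ τ j x).1) * τ ω)
      (by rw [un_cm' σ τ j h2 p x _ h, act_apply]; simp)
    exact ⟨γ', by rw [List.foldl_cons, h', List.map_cons, List.prod_cons, mul_assoc]⟩

theorem un_ff (h2 : (2 : F) ≠ 0) (a b x y : Alg (pr σ τ j)) (l : List (Alg (pr σ τ j))) :
    un σ τ j (ff a b x y l) = (0, (0, 0, 0, σ (j (un σ τ j y).1) * σ (j (un σ τ j x).1) *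
      (un σ τ j (cm a b)).2.2.1 *
        τ (((x :: (l ++ [y])).map fun q => ι F (j (un σ τ j q).1)).prod))) := by
  set β := (un σ τ j (cm a b)).2.2.1 with hβ
  obtain ⟨ω, γ, h0⟩ : ∃ ω γ, un σ τ j (cm a b) = (0, (0, β, ω, γ)) := by
    refine ⟨(un σ τ j (cm a b)).2.2.2.1, (un σ τ j (cm a b)).2.2.2.2, ?_⟩
    refine Prod.ext ?_ (Prod.ext ?_ rfl)
    · rw [un_cm σ τ j h2]
    · rw [un_cm σ τ j h2]; simp [act_apply]
  have h1 := un_cm' σ τ j h2 _ x _ h0
  have h3 := un_cm' σ τ j h2 _ x _ h1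
  rw [act_apply, act_apply] at h3
  simp only [mul_zero, zero_smul, zero_add, add_mul, mul_assoc, ι_sq_zero, add_zero,
    smul_mul_assoc, one_mul] at h3
  obtain ⟨γ', h4⟩ := un_foldl σ τ j h2 l _ _ _ h3
  have h5 := un_cm' σ τ j h2 _ y _ h4
  have h6 := un_cm' σ τ j h2 _ y _ h5
  rw [ff, h6, act_apply, act_apply]
  simp [mul_assoc]

theorem inW_ex (h2 : (2 : F) ≠ 0)
    (hτ : ∀ l : List V', τ ((l.map fun v => ι F (j v)).prod) = 0) : InW (Alg (pr σ τ j)) := by
  refine ⟨kok_of_anti (pr_anti σ τ j), fun a b c d => ?_, fun a b x y l => ?_⟩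
  · change un σ τ j (cm (cm a b) (cm c d)) = 0
    rw [un_cm' σ τ j h2 _ _ _ (un_cm σ τ j h2 a b), un_cm σ τ j h2 c d]
    simp
  · change un σ τ j (ff a b x y l) = 0
    have := hτ ((x :: (l ++ [y])).map fun q => (un σ τ j q).1)
    rw [List.map_map] at this
    rw [un_ff σ τ j h2]
    have e : ((fun v => ι F (j v)) ∘ fun q => (un σ τ j q).1) =
      fun q => ι F (j (un σ τ j q).1) := rfl
    rw [e] at this
    rw [this]
    simp

end

/-- the top degree functional -/
noncomputable def tau (F : Type u) [Field F] (n : ℕ) : ExteriorAlgebra F (Fin n → F) →ₗ[F] F :=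
  liftAlternating (Pi.single (M := fun i => (Fin n → F) [⋀^Fin i]→ₗ[F] F) n
    (Matrix.detRowAlternating (n := Fin n) (R := F)))

theorem tau_small {k n : ℕ} (hk : k < n) (j : (Fin k → F) →ₗ[F] (Fin n → F))
    (l : List (Fin k → F)) : tau F n ((l.map fun v => ι F (j v)).prod) = 0 := by
  have e : (l.map fun v => ι F (j v)).prod = ιMulti F l.length (fun i => j (l.get i)) := by
    rw [ιMulti_apply]
    congr 1
    apply List.ext_getElem <;> simp
  rw [e, tau, liftAlternating_apply_ιMulti]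
  by_cases hl : l.length = n
  · apply AlternatingMap.map_linearDependent
    intro hli
    have h1 : LinearIndependent F (fun i => l.get i) := LinearIndependent.of_comp j hli
    have h2 := h1.fintype_card_le_finrank
    simp at h2
    omega
  · rw [Pi.single_eq_of_ne hl]; rfl

theorem tau_top (n : ℕ) :
    tau F n ((List.ofFn fun i : Fin n => ι F (Pi.single i (1 : F) : Fin n → F)).prod) = 1 := by
  rw [← ιMulti_apply, tau, liftAlternating_apply_ιMulti, Pi.single_eq_same]
  change Matrix.det (Matrix.of fun i : Fin n => (Pi.single i (1 : F) : Fin n → F)) = 1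
  have : (Matrix.of fun i : Fin n => (Pi.single i (1 : F) : Fin n → F)) = 1 := by
    ext i j
    simp [Matrix.one_apply, Pi.single_apply, eq_comm]
  rw [this, Matrix.det_one]

/-- the sum of the coordinates -/
noncomputable def sig (F : Type u) [Field F] (n : ℕ) : (Fin n → F) →ₗ[F] F :=
  ∑ i, LinearMap.proj i

theorem sig_single {n : ℕ} (i : Fin n) : sig F n (Pi.single i 1) = 1 := by
  simp [sig, Pi.single_apply]

theorem not_inW (h2 : (2 : F) ≠ 0) (k : ℕ) :
    ¬ InW (Alg (pr (sig F (k + 2)) (tau F (k + 2)) (LinearMap.id (M := Fin (k + 2) → F)))) := by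
  intro h
  let e : Fin (k + 2) → Alg (pr (sig F (k + 2)) (tau F (k + 2)) (LinearMap.id (M := Fin (k + 2) → F))) :=
    fun i => toA _ (Pi.single i 1, 0)
  have h1 := h.2.2 (toA _ (0, (1, 0, 0, 0))) (e 0) (e 0) (e (Fin.last _))
    (List.ofFn fun i : Fin k => e i.castSucc.succ)
  have h3 := congrArg (un _ _ _) h1
  rw [un_ff _ _ _ h2, un_cm' _ _ _ h2 (toA _ (0, (1, 0, 0, 0))) _ (1, 0, 0, 0) rfl] at h3
  have h4 : e 0 :: ((List.ofFn fun i : Fin k => e i.castSucc.succ) ++ [e (Fin.last _)]) =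
      List.ofFn e := by
    rw [List.ofFn_succ, List.ofFn_succ' (fun i : Fin (k + 1) => e i.succ)]
    simp
  rw [h4, List.map_ofFn] at h3
  have h5 := congrArg (fun p => p.2.2.2.2) h3
  have h6 : ∀ i, (un _ _ _ (e i)).1 = Pi.single i 1 := fun i => rfl
  simp only [h6, LinearMap.id_apply, sig_single, act_apply, Function.comp_def, tau_top] at h5
  simp only [mul_one] at h5
  exact one_ne_zero (α := F) h5

/-- kill the variables of large index -/
noncomputable def rho (F : Type u) [Field F] (k : ℕ) : Fr F →ₙₐ[F] Fr F :=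
  FreeNonUnitalNonAssocAlgebra.lift F fun i => if i < k then X F i else 0

theorem rho_ev (f : Fr F) : ∃ k0, ∀ k, k0 ≤ k → rho F k f = f := by
  have hw : ∀ w : FreeMagma ℕ, ∃ k0, ∀ k, k0 ≤ k →
      rho F k (MonoidAlgebra.ofMagma F _ w) = MonoidAlgebra.ofMagma F _ w := by
    intro w
    induction w with
    | ih1 i =>
      refine ⟨i + 1, fun k hk => ?_⟩
      have := FreeNonUnitalNonAssocAlgebra.lift_of_apply F
        (fun i => if i < k then X F i else 0) i
      rw [if_pos (by omega)] at this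
      exact this
    | ih2 u v ihu ihv =>
      obtain ⟨a, ha⟩ := ihu
      obtain ⟨b, hb⟩ := ihv
      exact ⟨a + b, fun k hk => by rw [map_mul, map_mul, ha k (by omega), hb k (by omega)]⟩
  induction f using MonoidAlgebra.induction_linear with
  | zero => exact ⟨0, fun k _ => map_zero _⟩
  | add f g hf hg =>
    obtain ⟨a, ha⟩ := hf
    obtain ⟨b, hb⟩ := hg
    exact ⟨a + b, fun k hk => by rw [map_add, ha k (by omega), hb k (by omega)]⟩
  | single w r =>
    obtain ⟨a, ha⟩ := hw w
    refine ⟨a, fun k hk => ?_⟩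
    have : MonoidAlgebra.single w r = r • MonoidAlgebra.ofMagma F _ w := by simp
    rw [this, map_smul, ha k hk]

theorem not_fb (h2 : (2 : F) ≠ 0) : ¬ ∃ S : Finset (Fr F),
    ∀ (B : Type u) [NonUnitalNonAssocRing B] [Module F B] [IsScalarTower F B B]
      [SMulCommClass F B B], Sat F B (S : Set (Fr F)) ↔ Sat F B (Tset F) := by
  rintro ⟨S, hS⟩
  choose k0 hk0 using rho_ev (F := F)
  let k := S.sup k0
  apply not_inW h2 k
  apply inW_of_sat (F := F)
  rw [← hS]
  intro f hf g
  let j : (Fin k → F) →ₗ[F] (Fin (k + 2) → F) :=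
    Fintype.linearCombination F fun i : Fin k => (un _ _ _ (g (X F i))).1
  have hB := (hS _).2 (sat_of_inW (F := F)
    (inW_ex (sig F (k + 2)) (tau F (k + 2)) j h2 (tau_small (by omega) j)))
  let π : Alg (pr (sig F (k + 2)) (tau F (k + 2)) j) →ₙₐ[F]
      Alg (pr (sig F (k + 2)) (tau F (k + 2)) (LinearMap.id (M := Fin (k + 2) → F))) :=
    mkHom ((toA _).toLinearMap ∘ₗ (j.prodMap LinearMap.id) ∘ₗ (toA _).symm.toLinearMap) (by
      intro a b
      change (j.prodMap LinearMap.id) (pr _ _ j (un _ _ _ a) (un _ _ _ b)) =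
        pr _ _ LinearMap.id ((j.prodMap LinearMap.id) (un _ _ _ a))
          ((j.prodMap LinearMap.id) (un _ _ _ b))
      simp [pr_apply])
  let g' : Fr F →ₙₐ[F] Alg (pr (sig F (k + 2)) (tau F (k + 2)) j) :=
    FreeNonUnitalNonAssocAlgebra.lift F fun i =>
      if h : i < k then toA _ (Pi.single ⟨i, h⟩ 1, (un _ _ _ (g (X F i))).2) else 0
  have hg : g.comp (rho F k) = π.comp g' := by
    apply FreeNonUnitalNonAssocAlgebra.hom_ext
    intro i
    rw [NonUnitalAlgHom.comp_apply, NonUnitalAlgHom.comp_apply, rho,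
      FreeNonUnitalNonAssocAlgebra.lift_of_apply, FreeNonUnitalNonAssocAlgebra.lift_of_apply]
    by_cases h : i < k
    · rw [if_pos h, dif_pos h]
      change un _ _ _ (g (X F i)) = (j.prodMap LinearMap.id) (Pi.single ⟨i, h⟩ 1, _)
      refine Prod.ext ?_ rfl
      simp [j]
    · rw [if_neg h, dif_neg h, map_zero, map_zero]
  rw [← hk0 f k (Finset.le_sup hf), ← NonUnitalAlgHom.comp_apply, hg, NonUnitalAlgHom.comp_apply,
    hB f hf, map_zero]

end Pool.Agent.H.MP_b8847a_al
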