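import Pool.Agent.H.MP_b8847a_al.Var

set_option maxHeartbeats 400000

namespace Pool.Agent.H.MP_b8847a_al

open Pool.Agent.H.MP_b27eb5_al

universe u

variable {F : Type u} [Field F] {B : Type u} [NonUnitalNonAssocRing B] [Module F B]
  [IsScalarTower F B B] [SMulCommClass F B B]

/-- `w ↦ [w, x]` -/
noncomputable def ad (F : Type u) [Field F] [Module F B] [IsScalarTower F B B]
    [SMulCommClass F B B] (x : B) : B →ₗ[F] B :=
  LinearMap.mulRight F x - LinearMap.mulLeft F x

theorem ad_apply (x w : B) : ad F x w = cm w x := by simp [ad, cm]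

/-- operator words -/
noncomputable def op (F : Type u) [Field F] [Module F B] [IsScalarTower F B B]
    [SMulCommClass F B B] : List B → B →ₗ[F] B
  | [] => LinearMap.id
  | x :: l => op F l ∘ₗ ad F x

theorem op_apply (l : List B) (w : B) : op F l w = l.foldl cm w := by
  induction l generalizing w with
  | nil => rfl
  | cons x l ih => simp [op, ih, ad_apply]

theorem op_append (l l' : List B) (w : B) : op F (l ++ l') w = op F l' (op F l w) := by
  simp [op_apply]

/-- words containing a square -/
def Isq (F : Type u) [Field F] (B : Type u) [NonUnitalNonAssocRing B] [Module F B]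
    [IsScalarTower F B B] [SMulCommClass F B B] : Submodule F (B →ₗ[F] B) :=
  Submodule.span F {φ | ∃ (l₁ l₂ : List B) (x : B), φ = op F (l₁ ++ x :: x :: l₂)}

theorem swap_mem (l₁ l₂ : List B) (x y : B) :
    op F (l₁ ++ x :: y :: l₂) + op F (l₁ ++ y :: x :: l₂) ∈ Isq F B := by
  have : op F (l₁ ++ x :: y :: l₂) + op F (l₁ ++ y :: x :: l₂) =
      op F (l₁ ++ (x + y) :: (x + y) :: l₂) - op F (l₁ ++ x :: x :: l₂) -
        op F (l₁ ++ y :: y :: l₂) := by
    ext w
    simp only [LinearMap.add_apply, LinearMap.sub_apply, op_append, op, LinearMap.comp_apply,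
      ← map_add, ← map_sub, ad_apply]
    congr 1
    simp only [cm, mul_add, add_mul, mul_sub, sub_mul]
    abel
  rw [this]
  exact Submodule.sub_mem _ (Submodule.sub_mem _ (Submodule.subset_span ⟨_, _, _, rfl⟩)
    (Submodule.subset_span ⟨_, _, _, rfl⟩)) (Submodule.subset_span ⟨_, _, _, rfl⟩)

theorem perm_mem {l l' : List B} (h : l.Perm l') :
    ∀ p : List B, op F (p ++ l') ∈ Isq F B → op F (p ++ l) ∈ Isq F B := by
  induction h with
  | nil => exact fun _ h => h
  | cons x _ ih =>
    intro p hp
    have := ih (p ++ [x]) (by simpa using hp)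
    simpa using this
  | swap x y l =>
    intro p hp
    have := Submodule.sub_mem _ (swap_mem (F := F) p l x y) hp
    simpa using this
  | trans _ _ ih1 ih2 => exact fun p hp => ih1 p (ih2 p hp)

theorem mem_of_not_nodup {l : List B} (h : ¬ l.Nodup) : op F l ∈ Isq F B := by
  obtain ⟨x, hx⟩ := List.exists_duplicate_iff_not_nodup.2 h
  obtain ⟨l', hl'⟩ := (List.duplicate_iff_sublist.1 hx).exists_perm_append
  exact perm_mem hl' [] (Submodule.subset_span ⟨[], l', x, rfl⟩)

theorem foldl_cm_eq (l : List B) (a b : B) : ∃ a' b' : B, l.foldl cm (cm a b) = cm a' b' := by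
  induction l generalizing a b with
  | nil => exact ⟨a, b, rfl⟩
  | cons x l ih => exact ih _ _

theorem isq_kill (h : InW B) {φ ψ : B →ₗ[F] B} (hφ : φ ∈ Isq F B) (hψ : ψ ∈ Isq F B) (a b : B) :
    ψ (φ (cm a b)) = 0 := by
  induction hφ using Submodule.span_induction with
  | mem φ hφ =>
    obtain ⟨l₁, l₂, x, rfl⟩ := hφ
    induction hψ using Submodule.span_induction with
    | mem ψ hψ =>
      obtain ⟨l₃, l₄, y, rfl⟩ := hψ
      obtain ⟨a', b', h'⟩ := foldl_cm_eq l₁ a b
      have := h.2.2 a' b' x y (l₂ ++ l₃)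
      rw [ff, ← h', List.foldl_append] at this
      rw [op_append, op_append, op, op, op, op]
      simp only [LinearMap.comp_apply, ad_apply]
      rw [op_apply l₁, op_apply l₂, op_apply l₃, this, map_zero]
    | zero => simp
    | add _ _ _ _ h1 h2 => rw [LinearMap.add_apply, h1, h2, add_zero]
    | smul _ _ _ h1 => rw [LinearMap.smul_apply, h1, smul_zero]
  | zero => simp
  | add _ _ _ _ h1 h2 => rw [LinearMap.add_apply, map_add, h1, h2, add_zero]
  | smul _ _ _ h1 => rw [LinearMap.smul_apply, map_smul, h1, smul_zero]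

theorem long_zero (h : InW B) (s : Finset B) (l : List B) (hl : ∀ x ∈ l, x ∈ s)
    (hlen : 2 * (s.card + 1) ≤ l.length) (a b : B) : op F l (cm a b) = 0 := by
  classical
  have key : ∀ l : List B, (∀ x ∈ l, x ∈ s) → s.card + 1 ≤ l.length → ¬ l.Nodup := by
    intro l hl hlen hn
    have h1 : l.toFinset ⊆ s := fun x hx => hl x (List.mem_toFinset.1 hx)
    have h2 := Finset.card_le_card h1
    rw [List.toFinset_card_of_nodup hn] at h2
    omega
  rw [← List.take_append_drop (s.card + 1) l, op_append]
  refine isq_kill h (mem_of_not_nodup (key _ (fun x hx => hl x (List.mem_of_mem_take hx)) ?_))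
    (mem_of_not_nodup (key _ (fun x hx => hl x (List.mem_of_mem_drop hx)) ?_)) a b
  · simp; omega
  · simp; omega

theorem locNil_of_inW (h2 : (2 : F) ≠ 0) (h : InW B) (hsq : ∀ b : B, b * b = 0) : LocNil F B := by
  intro s
  have hanti : ∀ a b : B, a * b = -(b * a) := by
    intro a b
    have := hsq (a + b)
    rw [add_mul, mul_add, mul_add, hsq a, hsq b, zero_add, add_zero] at this
    exact eq_neg_of_add_eq_zero_left this
  have hmul : ∀ a b : B, a * b = (2⁻¹ : F) • cm a b := by
    intro a b
    rw [cm, hanti b a, sub_neg_eq_add, ← two_smul F, smul_smul, inv_mul_cancel₀ h2, one_smul]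
  let P : ℕ → Submodule F B := fun m => Submodule.span F
    {w | ∃ (a b : B) (l : List B), (∀ x ∈ l, x ∈ s) ∧ m ≤ l.length ∧ w = op F l (cm a b)}
  let K : Submodule F B := Submodule.span F {w | ∃ a b : B, w = cm a b}
  have hPK : ∀ m, P m ≤ K := by
    intro m
    apply Submodule.span_le.2
    rintro w ⟨a, b, l, -, -, rfl⟩
    obtain ⟨a', b', h'⟩ := foldl_cm_eq l a b
    exact Submodule.subset_span ⟨a', b', by rw [op_apply, h']⟩
  have hKK : ∀ u ∈ K, ∀ v ∈ K, u * v = 0 := by
    intro u hu v hv
    induction hu using Submodule.span_induction with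
    | mem u hu =>
      obtain ⟨a, b, rfl⟩ := hu
      induction hv using Submodule.span_induction with
      | mem v hv =>
        obtain ⟨c, d, rfl⟩ := hv
        rw [hmul, h.2.1, smul_zero]
      | zero => simp
      | add _ _ _ _ h1 h2 => rw [mul_add, h1, h2, add_zero]
      | smul _ _ _ h1 => rw [mul_smul_comm, h1, smul_zero]
    | zero => simp
    | add _ _ _ _ h1 h2 => rw [add_mul, h1, h2, add_zero]
    | smul _ _ _ h1 => rw [smul_mul_assoc, h1, smul_zero]
  have hstep1 : ∀ m, ∀ u ∈ P m, ∀ x ∈ s, u * x ∈ P (m + 1) := by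
    intro m u hu x hx
    induction hu using Submodule.span_induction with
    | mem u hu =>
      obtain ⟨a, b, l, h1, h3, rfl⟩ := hu
      rw [hmul]
      refine Submodule.smul_mem _ _ (Submodule.subset_span ⟨a, b, l ++ [x], ?_, by simpa, ?_⟩)
      · intro y hy
        rcases List.mem_append.1 hy with h | h
        · exact h1 y h
        · rw [List.mem_singleton.1 h]; exact hx
      · simp [op_apply]
    | zero => simp
    | add _ _ _ _ h1 h2 => rw [add_mul]; exact Submodule.add_mem _ h1 h2
    | smul _ _ _ h1 => rw [smul_mul_assoc]; exact Submodule.smul_mem _ _ h1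
  have hmulK : ∀ a b : B, a * b ∈ P 0 := by
    intro a b
    rw [hmul]
    exact Submodule.smul_mem _ _ (Submodule.subset_span ⟨a, b, [], by simp, le_rfl, rfl⟩)
  have hstep : ∀ c ∈ NonUnitalAlgebra.adjoin F (s : Set B), ∀ m, ∀ u ∈ P m, u * c ∈ P (m + 1) := by
    intro c hc m u hu
    induction hc using NonUnitalAlgebra.adjoin_induction with
    | mem x hx => exact hstep1 m u hu x hx
    | add _ _ _ _ h1 h2 => rw [mul_add]; exact Submodule.add_mem _ h1 h2
    | zero => simp
    | mul x y _ _ _ _ => rw [hKK u (hPK m hu) _ (hPK 0 (hmulK x y))]; exact Submodule.zero_mem _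
    | smul _ _ _ h1 => rw [mul_smul_comm]; exact Submodule.smul_mem _ _ h1
  have key : ∀ w : FreeMagma (NonUnitalAlgebra.adjoin F (s : Set B)),
      (∃ c, w = FreeMagma.of c) ∨
        (2 ≤ w.length ∧ FreeMagma.lift Subtype.val w ∈ P (w.length - 2)) := by
    intro w
    induction w with
    | ih1 c => exact Or.inl ⟨c, rfl⟩
    | ih2 u v ihu ihv =>
      right
      have hlen : (u * v).length = u.length + v.length := by simp
      have hu := u.length_pos
      have hv := v.length_pos
      refine ⟨by omega, ?_⟩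
      rw [map_mul, hlen]
      rcases ihu with ⟨c, rfl⟩ | ⟨hu1, hu2⟩ <;> rcases ihv with ⟨d, rfl⟩ | ⟨hv1, hv2⟩
      · exact hmulK _ _
      · rw [hanti]
        apply Submodule.neg_mem
        have := hstep c c.2 _ _ hv2
        rw [show (FreeMagma.of c).length + v.length - 2 = v.length - 2 + 1 by simp; omega]
        exact this
      · have := hstep d d.2 _ _ hu2
        rw [show u.length + (FreeMagma.of d).length - 2 = u.length - 2 + 1 by simp; omega]
        exact this
      · rw [hKK _ (hPK _ hu2) _ (hPK _ hv2)]; exact Submodule.zero_mem _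
  refine ⟨2 * (s.card + 1) + 2, fun w hw => ?_⟩
  rcases key w with ⟨c, rfl⟩ | ⟨-, h3⟩
  · simp at hw
  · have : P (w.length - 2) ≤ ⊥ := by
      apply Submodule.span_le.2
      rintro _ ⟨a, b, l, h1, h4, rfl⟩
      simpa using long_zero (F := F) h s l h1 (by omega) a b
    simpa using this h3

theorem locAdm (h2 : (2 : F) ≠ 0) : LocAdm F (Tset F) :=
  fun _ _ _ _ _ hB hsq => locNil_of_inW h2 (inW_of_sat hB) hsq

end Pool.Agent.H.MP_b8847a_al
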