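import Pool.Agent.H.MP_b27eb5_al.Main

set_option maxHeartbeats 400000

namespace Pool.Agent.H.MP_b8847a_al

open Pool.Agent.H.MP_b27eb5_al

universe u

variable {F : Type u} [Field F]

/-- the long commutator -/
def ff {B : Type u} [NonUnitalNonAssocRing B] (a b x y : B) (l : List B) : B :=
  cm (cm (l.foldl cm (cm (cm (cm a b) x) x)) y) y

/-- the Kokoris defect -/
def kk {B : Type u} [NonUnitalNonAssocRing B] (a b c : B) : B :=
  cm (cm a b) c + cm (cm b c) a + cm (cm c a) b - (4 • (a * b * c - a * (b * c)) - cm (cm a c) b)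

/-- generators -/
noncomputable def X (F : Type u) [Field F] (i : ℕ) : Fr F := FreeNonUnitalNonAssocAlgebra.of F i

/-- the defining identities -/
def Tset (F : Type u) [Field F] : Set (Fr F) :=
  {kk (X F 0) (X F 1) (X F 2), cm (cm (X F 0) (X F 1)) (cm (X F 2) (X F 3))} ∪
    Set.range fun n : ℕ =>
      ff (X F 0) (X F 1) (X F 2) (X F 3) ((List.range n).map fun i => X F (i + 4))

section

variable {B C : Type u} [NonUnitalNonAssocRing B] [Module F B] [NonUnitalNonAssocRing C]
  [Module F C]

theorem map_cm (g : B →ₙₐ[F] C) (a b : B) : g (cm a b) = cm (g a) (g b) := by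
  simp [cm]

theorem map_foldl (g : B →ₙₐ[F] C) (l : List B) (w : B) :
    g (l.foldl cm w) = (l.map g).foldl cm (g w) := by
  induction l generalizing w with
  | nil => rfl
  | cons x l ih => simp [ih, map_cm]

theorem map_ff (g : B →ₙₐ[F] C) (a b x y : B) (l : List B) :
    g (ff a b x y l) = ff (g a) (g b) (g x) (g y) (l.map g) := by
  simp [ff, map_cm, map_foldl]

theorem map_kk (g : B →ₙₐ[F] C) (a b c : B) : g (kk a b c) = kk (g a) (g b) (g c) := by
  simp [kk, map_cm]

/-- membership in the variety -/
def InW (B : Type u) [NonUnitalNonAssocRing B] : Prop :=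
  IsKokoris B ∧ (∀ a b c d : B, cm (cm a b) (cm c d) = 0) ∧ ∀ (a b x y : B) (l : List B),
    ff a b x y l = 0

theorem sat_of_inW (h : InW B) : Sat F B (Tset F) := by
  rintro f ((rfl | rfl) | ⟨n, rfl⟩) g
  · rw [map_kk, kk, h.1, sub_self]
  · rw [map_cm, map_cm, map_cm, h.2.1]
  · rw [map_ff, h.2.2]

theorem inW_of_sat [IsScalarTower F B B] [SMulCommClass F B B] (h : Sat F B (Tset F)) : InW B := by
  have key : ∀ (a b x y : B) (l : List B), ∃ g : Fr F →ₙₐ[F] B, g (X F 0) = a ∧ g (X F 1) = b ∧
      g (X F 2) = x ∧ g (X F 3) = y ∧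
        ((List.range l.length).map fun i => X F (i + 4)).map g = l := by
    intro a b x y l
    refine ⟨FreeNonUnitalNonAssocAlgebra.lift F (fun i => (a :: b :: x :: y :: l).getD i 0),
      by simp [X], by simp [X], by simp [X], by simp [X], ?_⟩
    apply List.ext_getElem
    · simp
    · intro i h1 h2
      simp [X, h2]
  refine ⟨fun a b c => ?_, fun a b c d => ?_, fun a b x y l => ?_⟩
  · obtain ⟨g, h0, h1, h2, -, -⟩ := key a b c 0 []
    have := h _ (Or.inl (Or.inl rfl)) g
    rw [map_kk, h0, h1, h2, kk, sub_eq_zero] at this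
    exact this
  · obtain ⟨g, h0, h1, h2, h3, -⟩ := key a b c d []
    have := h _ (Or.inl (Or.inr rfl)) g
    rw [map_cm, map_cm, map_cm, h0, h1, h2, h3] at this
    exact this
  · obtain ⟨g, h0, h1, h2, h3, h4⟩ := key a b x y l
    have := h _ (Or.inr ⟨l.length, rfl⟩) g
    rw [map_ff, h0, h1, h2, h3, h4] at this
    exact this

theorem kok_of_anti (h : ∀ a b : B, a * b = -(b * a)) : IsKokoris B := by
  intro a b c
  have h1 : ∀ a b : B, cm a b = a * b + a * b := fun a b => by rw [cm, h b a, sub_neg_eq_add]
  simp only [h1, add_mul]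
  rw [h a (b * c), h a c, neg_mul]
  abel

theorem inW_of_comm (h : ∀ a b : B, a * b = b * a) (h' : ∀ a b c : B, a * b * c = a * (b * c)) :
    InW B := by
  have h1 : ∀ a b : B, cm a b = 0 := fun a b => by rw [cm, h, sub_self]
  refine ⟨fun a b c => by simp [h1, h'], fun a b c d => h1 _ _, fun a b x y l => h1 _ _⟩

theorem ncj_of_kok [IsScalarTower F B B] [SMulCommClass F B B] (h2 : (2 : F) ≠ 0)
    (hK : IsKokoris B) (x y : B) : x * y * x = x * (y * x) ∧ x * x * y * x = x * x * (y * x) := by
  obtain ⟨hassoc, hleib⟩ := kok_parts h2 hK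
  have h4 : (4 : F) ≠ 0 := by
    rw [show (4 : F) = 2 * 2 by norm_num]; exact mul_ne_zero h2 h2
  have hself : ∀ a : B, jb (F := F) a a = 0 := fun a => by simp [jb_apply]
  have key : ∀ a b c : B, a * b * c - a * (b * c) =
      jb (F := F) (jb (F := F) a b) c + jb (F := F) (jb (F := F) b c) a := by
    intro a b c
    have h := hK a b c
    simp only [cm_eq h2, map_smul, LinearMap.smul_apply, smul_smul] at h
    rw [jb_anti a c, map_neg, LinearMap.neg_apply, ← Nat.cast_smul_eq_nsmul F] at h
    rw [← sub_eq_zero]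
    apply (smul_eq_zero_iff_right h4).1
    linear_combination (norm := module) -h
  constructor
  · rw [← sub_eq_zero, key, jb_anti y x, map_neg, LinearMap.neg_apply, add_neg_cancel]
  · rw [← sub_eq_zero, key, ← jm_add_jb h2 x x, hself, add_zero, jb_anti (jm (F := F) x x) y,
      hleib, hleib, jm_comm (jb (F := F) y x) x, map_neg, LinearMap.neg_apply,
      jb_anti _ x, map_add, hleib, hself, jb_anti x (jb (F := F) y x),
      jm_comm (jb (F := F) (jb (F := F) y x) x) x]
    simp

theorem cm_unit [IsScalarTower F B B] [SMulCommClass F B B] (p q : Unitization F B) :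
    cm p q = ((cm p.snd q.snd : B) : Unitization F B) := by
  ext
  · rw [Unitization.fst_inr, cm, sub_eq_add_neg]
    simp [mul_comm]
  · rw [Unitization.snd_inr, cm, cm, sub_eq_add_neg]
    simp; abel

theorem foldl_unit [IsScalarTower F B B] [SMulCommClass F B B] (l : List (Unitization F B))
    (w : B) : l.foldl cm (w : Unitization F B) =
      (((l.map fun p => p.snd).foldl cm w : B) : Unitization F B) := by
  induction l generalizing w with
  | nil => rfl
  | cons x l ih => simp [cm_unit, ih]

theorem inW_unit [IsScalarTower F B B] [SMulCommClass F B B] (h : InW B) :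
    InW (Unitization F B) := by
  refine ⟨fun a b c => ?_, fun a b c d => ?_, fun a b x y l => ?_⟩
  · have h1 : a * b * c - a * (b * c) =
        ((a.snd * b.snd * c.snd - a.snd * (b.snd * c.snd) : B) : Unitization F B) := by
      ext
      · rw [Unitization.fst_inr, sub_eq_add_neg]
        simp [mul_assoc]
      · rw [Unitization.snd_inr, sub_eq_add_neg]
        simp [add_mul, mul_add, smul_smul, mul_comm, mul_smul_comm, smul_mul_assoc]; abel
    rw [h1]
    simp only [cm_unit, Unitization.snd_inr]
    rw [← Unitization.inr_add, ← Unitization.inr_add, h.1]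
    ext <;> simp
  · simp [cm_unit, h.2.1]
  · have := h.2.2 a.snd b.snd x.snd y.snd (l.map fun p => p.snd)
    rw [ff] at this
    simp [ff, cm_unit, foldl_unit, this]

end

end Pool.Agent.H.MP_b8847a_al
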